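import Mathlib
import Pool.Agent.N991.MK.Act1

/-!
# The a-function is continuous in a parameter
-/

open MeasureTheory Filter
open scoped Topology
open Pool.Agent.N989.MK (H4 int_pos)
open Pool.Agent.N991.MK

namespace Pool.Agent.N984.AT

set_option linter.unusedSectionVars false

noncomputable section

variable {G : Type*} [Group G] [TopologicalSpace G] [IsTopologicalGroup G] [CompactSpace G]
  [MeasurableSpace G] [BorelSpace G] [SecondCountableTopology G]
  {μ : Measure G} [IsProbabilityMeasure μ] [μ.IsHaarMeasure] [μ.IsMulRightInvariant]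
  [μ.IsInvInvariant]

lemma cont_int {f : ℝ → G → ℝ} (hf : Continuous fun p : ℝ × G => f p.1 p.2) :
    Continuous fun s => ∫ x, f s x ∂μ := by
  have h := continuous_parametric_integral_of_continuous (μ := μ)
    (f := fun (s : ℝ) (y : G) => f s y) (s := Set.univ) hf isCompact_univ
  simpa using h

/-- continuity of the a-function in a parameter -/
theorem cont_a {F : ℝ → G → ℝ} (hF : Continuous fun p : ℝ × G => F p.1 p.2)
    (hp : ∀ s x, 0 < F s x) :
    Continuous fun s => 4 * Real.log (∫ x, F s x ^ (5 / 4 : ℝ) ∂μ) -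
      Real.log (∫ x, conv μ (conv μ (F s) (F s)) (conv μ (F s) (F s)) x * F s x ∂μ) := by
  have h0 : ∀ s, Continuous (F s) := fun s =>
    hF.comp (by fun_prop : Continuous fun x : G => (s, x))
  have c1 : Continuous fun p : ℝ × G => F p.1 p.2 ^ (5 / 4 : ℝ) :=
    hF.rpow_const fun _ => Or.inr (by norm_num)
  have c2 := cont_conv3 (μ := μ) hF hF
  have c3 := cont_conv3 (μ := μ) (f := fun s => conv μ (F s) (F s))
    (g := fun s => conv μ (F s) (F s)) c2 c2
  have c4 : Continuous fun p : ℝ × G =>
      conv μ (conv μ (F p.1) (F p.1)) (conv μ (F p.1) (F p.1)) p.2 * F p.1 p.2 := c3.mul hF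
  have p2 : ∀ s x, 0 < conv μ (F s) (F s) x := fun s x =>
    conv_pos (h0 s) (h0 s) (hp s) (hp s) x
  have q2 : ∀ s, Continuous (conv μ (F s) (F s)) := fun s => cont_conv (h0 s) (h0 s)
  have p3 : ∀ s x, 0 < conv μ (conv μ (F s) (F s)) (conv μ (F s) (F s)) x := fun s x =>
    conv_pos (q2 s) (q2 s) (p2 s) (p2 s) x
  refine (continuous_const.mul ((cont_int c1).log fun s => ?_)).sub
    ((cont_int c4).log fun s => ?_)
  · exact (int_pos ((h0 s).rpow_const fun _ => Or.inr (by norm_num))
      fun x => Real.rpow_pos_of_pos (hp s x) _).ne'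
  · exact (int_pos ((cont_conv (q2 s) (q2 s)).mul (h0 s))
      fun x => mul_pos (p3 s x) (hp s x)).ne'

end

end Pool.Agent.N984.AT
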