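import Mathlib

/-!
# A function which increases under a shift
-/

open Filter
open scoped Topology

namespace Pool.Agent.N984.AT

/-- a continuous function which increases under the shift by `c` and tends to `L` along each orbit
tends to `L` -/
lemma dini_top {A : ℝ → ℝ} (hA : Continuous A) {c : ℝ} (hc : 0 < c)
    (h : ∀ s, A s ≤ A (s + c)) {L : ℝ}
    (hL : ∀ s, Tendsto (fun m : ℕ => A (s + m * c)) atTop (𝓝 L)) : Tendsto A atTop (𝓝 L) := by
  have hm : ∀ s, Monotone fun m : ℕ => A (s + m * c) := fun s => monotone_nat_of_le_succ fun m => by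
    have := h (s + m * c)
    have e : s + (m : ℝ) * c + c = s + ((m + 1 : ℕ) : ℝ) * c := by
      push_cast
      ring
    rwa [e] at this
  have hu : TendstoUniformlyOn (fun (m : ℕ) s => A (s + m * c)) (fun _ => L) atTop
      (Set.Icc 0 c) :=
    Monotone.tendstoUniformlyOn_of_forall_tendsto isCompact_Icc
      (fun m => (hA.comp (continuous_id.add continuous_const)).continuousOn)
      (fun s _ => hm s) continuousOn_const (fun s _ => hL s)
  rw [Metric.tendstoUniformlyOn_iff] at hu
  rw [Metric.tendsto_atTop]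
  intro ε hε
  obtain ⟨M, hM⟩ := eventually_atTop.1 (hu ε hε)
  refine ⟨(M + 1) * c, fun s hs => ?_⟩
  have hs0 : 0 ≤ s / c := by
    have : (0 : ℝ) ≤ (M + 1) * c := by positivity
    exact div_nonneg (this.trans hs) hc.le
  have h1 := Nat.floor_le hs0
  have h2 := Nat.lt_floor_add_one (s / c)
  rw [le_div_iff₀ hc] at h1
  rw [div_lt_iff₀ hc] at h2
  have h3 : M ≤ ⌊s / c⌋₊ := by
    refine Nat.le_floor ?_
    rw [le_div_iff₀ hc]
    nlinarith
  have h4 := hM _ h3 (s - ⌊s / c⌋₊ * c) ⟨by linarith, by nlinarith⟩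
  rw [dist_comm] at h4
  have e : s - (⌊s / c⌋₊ : ℝ) * c + ⌊s / c⌋₊ * c = s := by ring
  rwa [e] at h4

/-- the other end -/
lemma dini_bot {A : ℝ → ℝ} (hA : Continuous A) {c : ℝ} (hc : 0 < c)
    (h : ∀ s, A s ≤ A (s + c)) {L : ℝ}
    (hL : ∀ s, Tendsto (fun m : ℕ => A (s - m * c)) atTop (𝓝 L)) : Tendsto A atBot (𝓝 L) := by
  have h1 := dini_top (A := fun s => -A (-s)) (hA.comp continuous_neg).neg hc (L := -L)
    (fun s => by
      have := h (-(s + c))
      have e : -(s + c) + c = -s := by ring
      rw [e] at this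
      linarith)
    (fun s => by
      have h2 := (hL (-s)).neg
      refine h2.congr fun m => ?_
      have e : -s - (m : ℝ) * c = -(s + m * c) := by ring
      rw [e])
  have h3 := (h1.comp tendsto_neg_atBot_atTop).neg
  simpa [Function.comp_def] using h3

end Pool.Agent.N984.AT
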