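import Mathlib
import Pool.Agent.N991.MK.CThm3
import Pool.Agent.N984.AT.Cont
import Pool.Agent.N984.AT.Dini

/-!
# The a-theorem for all continuum limits
-/

open MeasureTheory Matrix Filter Pool.Agent.N991.MK Pool.Agent.N988.MK Pool.Agent.N989.MK
open scoped Matrix.Norms.Frobenius Topology
open Pool.Agent.H906R3.YM Pool.Agent.W793.YM Pool.Agent.TH618.YM Pool.Agent.N984.TW
open Pool.Agent.N109.T3 (Appr casimir_full)

namespace Pool.Agent.N984.AT

set_option linter.unusedSectionVars false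

noncomputable section

variable {N n : ℕ} {G : Subgroup (UN N)}
variable [MeasurableSpace G] [BorelSpace G] {μ : Measure G} [IsProbabilityMeasure μ]
  [μ.IsHaarMeasure]

/-- **Main theorem** -/
theorem irr_fam (hG : SimpleGroup G) {X : Fin n → Matrix (Fin N) (Fin N) ℂ}
    (hX : LieBasis G X) :
    ∃ (cA : ℝ) (F : ℝ → ℤ → G → ℝ), 0 < cA ∧
      (∀ c, ∑ a, (trace ((X c * X a - X a * X c)ᴴ * (X c * X a - X a * X c))).re = cA) ∧
      (∀ s, ∃ (β : ℕ → ℝ) (l : ℕ → ℕ), Appr μ (F s) (fun g => (trace (mx g)).re) β l) ∧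
      (∀ (S : G → ℝ) (β : ℕ → ℝ) (l : ℕ → ℕ) (F' : ℤ → G → ℝ), Appr μ F' S β l →
        F' = (fun _ _ => 1) ∨ ∃ s, F' = F s) ∧
      (∀ s k, F s (k + 1) = F (s - cA / 8) k) ∧
      (∀ s, Irr μ n (F s)) ∧
      Continuous (fun s => aFn μ (F s 0)) ∧
      Tendsto (fun s => aFn μ (F s 0)) atTop (𝓝 (n * (4 * Real.log 2 - 3 / 2 * Real.log 5))) ∧
      Tendsto (fun s => aFn μ (F s 0)) atBot (𝓝 0) := by
  have hGc : IsClosed (G : Set (UN N)) := hG.closed
  have : CompactSpace G := isCompact_iff_compactSpace.1 hGc.isCompact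
  have : ConnectedSpace G := isConnected_iff_connectedSpace.1 hG.connected
  have := haar_right μ
  have := haar_inv μ
  obtain ⟨cA, F, hcA, h2, hT, hLo, hjc, -, hsc, q₀, hq₀, hS⟩ := class_main (μ := μ) hG hX
  obtain ⟨P, hP⟩ := Pool.Agent.N565.MK.exists_constituent hG
  obtain ⟨B, rfl⟩ := exists_frame_of X hX.mem hX.orth hX.full
  have hn : 0 < n := frame_pos B hGc hG.nonabelian
  have hcas := casimir_full μ hG B hP h2
  have hLs : ∀ s, Loops μ B.X P cA (F s) := (hLo P hP).1
  have hF : ∀ (β : ℕ → ℝ) (l : ℕ → ℕ), (∀ i, 0 < β i) → Tendsto l atTop atTop → ∀ s,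
      Tendsto (par cA 1 β l) atTop (𝓝 s) →
      ConvS μ (fun g : G => (trace (mx g)).re) β l (F s) := by
    intro β l hβ hl s hs
    obtain ⟨κ, q, -, h3, h5, h4, -⟩ := hS _ bare_tr
    exact conv_tr B hGc hn hX.mem hq₀ h3 h5 (fun β l hβ hl => (h4 β l hβ hl).1) β l hβ hl s hs
  have happ := appr_of (μ := μ) hcA hF
  have hirr : ∀ s, Irr μ n (F s) := fun s =>
    irr_lt hG B hP hcA hcas (lt_of hcA (hT s) (hLs s)) (happ s)
  have hcont : Continuous fun s => aFn μ (F s 0) :=
    cont_a (F := fun s => F s 0) (hjc 0) fun s => (hT s).pos 0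
  have hc8 : 0 < cA / 8 := by positivity
  have hinc : ∀ s, aFn μ (F s 0) ≤ aFn μ (F (s + cA / 8) 0) := fun s => by
    have h3 := (hirr (s + cA / 8)).anti (show (0 : ℤ) < 0 + 1 by norm_num)
    beta_reduce at h3
    rw [hsc, add_sub_cancel_right] at h3
    exact h3.le
  have hdn : ∀ (s : ℝ) (m : ℕ), F (s - m * (cA / 8)) 0 = F s m := by
    intro s m
    induction m generalizing s with
    | zero => simp
    | succ j ih =>
      have e : ((j + 1 : ℕ) : ℤ) = (j : ℤ) + 1 := by push_cast; rfl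
      rw [e, hsc, ← ih]
      congr 1
      push_cast
      ring
  have hup : ∀ (s : ℝ) (m : ℕ), F (s + m * (cA / 8)) 0 = F s (-m) := by
    intro s m
    induction m generalizing s with
    | zero => simp
    | succ j ih =>
      have h3 := hsc (s + cA / 8) (-((j + 1 : ℕ) : ℤ))
      rw [add_sub_cancel_right] at h3
      have h4 := ih (s + cA / 8)
      have e1 : -((j + 1 : ℕ) : ℤ) + 1 = -(j : ℤ) := by push_cast; ring
      rw [e1, ← h4] at h3
      rw [← h3]
      congr 1
      push_cast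
      ring
  refine ⟨cA, F, hcA, h2, fun s => ⟨_, _, happ s⟩, fun S β l F' ha => ?_, hsc, hirr, hcont,
    dini_top hcont hc8 hinc fun s => ?_, dini_bot hcont hc8 hinc fun s => ?_⟩
  · obtain ⟨κ, q, -, -, -, h4, -⟩ := hS S ha.bare
    have h5 := (h4 β l ha.pos ha.len).2.2.2 F' ha.conv
    first
      | exact h5
      | exact h5.2
  · simp only [hup]
    have h3 : Tendsto (fun m : ℕ => -(m : ℤ)) atTop atBot :=
      tendsto_neg_atTop_atBot.comp tendsto_natCast_atTop_atTop
    exact (hirr s).uv.comp h3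
  · simp only [hdn]
    exact (hirr s).ir.comp tendsto_natCast_atTop_atTop

end

end Pool.Agent.N984.AT
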