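import Mathlib
import Pool.Agent.N453.T3.SqS
import Pool.Agent.N839.T3.ScI

/-!
# The ultraviolet limit of the a-function
-/

open MeasureTheory Matrix Filter Pool.Agent.N991.MK Pool.Agent.N989.MK
open scoped Matrix.Norms.Frobenius Topology
open Pool.Agent.H906R3.YM Pool.Agent.W793.YM Pool.Agent.TH618.YM Pool.Agent.N984.TW
open Pool.Agent.N109.T3 (nz gs fr cvR)
open Pool.Agent.N839.T3 (em SD gs_eq)
open Pool.Agent.N453.T3

namespace Pool.Agent.N984.AT

set_option linter.unusedSectionVars false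

noncomputable section

/-- `4 * log ∫ f ^ (5 / 4) - log (f * f * f * f * f) (1)` -/
def aF {G : Type*} [Group G] [MeasurableSpace G] (μ : Measure G) (f : G → ℝ) : ℝ :=
  4 * Real.log (∫ x, f x ^ (5 / 4 : ℝ) ∂μ) - Real.log (∫ x, H4 μ f x * f x ∂μ)

variable {N n : ℕ} {G : Subgroup (UN N)} {B : Frame G n} {hG : IsClosed (G : Set (UN N))}
variable {ι : Type*} {l : Filter ι} {h : ι → ℝ} {D : ι → G → ℝ} {F : (Fin n → ℝ) → ℝ}

/-- powers -/
lemma SD_rpow (H : SD B hG l h D F) (hD : ∀ i x, 0 ≤ D i x) {q : ℝ} (hq : 0 < q) :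
    SD B hG l h (fun i x => D i x ^ q) (fun x => F x ^ q) := by
  refine ⟨H.top, fun i => (H.cont i).rpow_const fun _ => Or.inr hq.le, fun x => ?_, ?_⟩
  · exact (Real.continuousAt_rpow_const (F x) q (Or.inr hq.le)).tendsto.comp (H.lim x)
  · obtain ⟨C, c, hC, hc, hd⟩ := H.dom
    refine ⟨C ^ q, q * c, by positivity, by positivity, ?_⟩
    filter_upwards [hd] with i h1 z
    have h2 := h1 z
    rw [abs_of_nonneg (hD i z)] at h2
    rw [abs_of_nonneg (Real.rpow_nonneg (hD i z) _)]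
    refine (Real.rpow_le_rpow (hD i z) h2 hq.le).trans (le_of_eq ?_)
    rw [Real.mul_rpow hC (Real.exp_pos _).le, ← Real.exp_mul]
    congr 2
    ring

lemma ga_rpow (a q : ℝ) (x : Fin n → ℝ) : ga a x ^ q = ga (q * a) x := by
  unfold ga
  rw [← Real.exp_mul]
  congr 1
  ring

lemma Ig_val {s : ℝ} (hs : 0 < s) : Ig n s = (Real.pi / s) ^ ((n : ℝ) / 2) := by
  rw [Ig_eq, integral_gaussian, Real.sqrt_eq_rpow, ← Real.rpow_natCast, ← Real.rpow_mul]
  · congr 1
    ring
  · have := Real.pi_pos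
    positivity

variable [MeasurableSpace G] [BorelSpace G] {μ : Measure G} [IsProbabilityMeasure μ]
  [μ.IsHaarMeasure] [μ.IsMulRightInvariant] [μ.IsInvInvariant]

/-- **free gluons** -/
theorem aF_lim [l.IsCountablyGenerated] (H : SD B hG l h D gs) (hD : ∀ i x, 0 < D i x) :
    Tendsto (fun i => aF μ (D i)) l (𝓝 (n * (4 * Real.log 2 - 3 / 2 * Real.log 5))) := by
  have hcomp : CompactSpace G := isCompact_iff_compactSpace.1 hG.isCompact
  have hnz : ∀ t, 0 < nz μ t := fun t => Pool.Agent.N839.T3.nz_pos t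
  have i12 : 0 < Ig n (1 / 2) := Ig_pos (by norm_num)
  have i58 : 0 < Ig n (5 / 8) := Ig_pos (by norm_num)
  have i1 : 0 < Ig n 1 := Ig_pos one_pos
  have e0 : ∫ x, gs (n := n) x = Ig n (1 / 2) := Ig_half
  -- the integral of the power
  have h1 := (SD_rpow H (fun i x => (hD i x).le) (show (0 : ℝ) < 5 / 4 by norm_num)).int_lim
    (μ := μ)
  have e1 : ∫ x, gs (n := n) x ^ (5 / 4 : ℝ) = Ig n (5 / 8) := by
    unfold Ig
    refine integral_congr_ae (Eventually.of_forall fun x => ?_)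
    beta_reduce
    rw [gs_ga, ga_rpow]
    norm_num
  rw [e0, e1] at h1
  -- the closed partition function
  have h2 := ((H4_lim (μ := μ) H).mul H).int_lim (μ := μ)
  have e2 : ∫ x, Ac n * ga (1 / 8) x * gs (n := n) x = Ac n * Ig n (5 / 8) := by
    unfold Ig
    rw [← integral_const_mul]
    refine integral_congr_ae (Eventually.of_forall fun x => ?_)
    beta_reduce
    rw [gs_ga]
    unfold ga
    rw [mul_assoc, ← Real.exp_add]
    congr 2
    ring
  rw [e0, e2] at h2
  have e3 : ∀ i, (∫ z, H4 μ (D i) z / nz μ (h i) ^ 3 * D i z ∂μ) / nz μ (h i) =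
      (∫ z, H4 μ (D i) z * D i z ∂μ) / nz μ (h i) ^ 4 := by
    intro i
    have h3 := (hnz (h i)).ne'
    have e4 : ∀ z, H4 μ (D i) z / nz μ (h i) ^ 3 * D i z =
        (nz μ (h i) ^ 3)⁻¹ * (H4 μ (D i) z * D i z) := fun z => by
      field_simp
    simp only [e4]
    rw [integral_const_mul]
    field_simp
  have hA : 0 < Ac n := Ac_pos
  have h3 := (h1.log (by positivity)).const_mul 4
  have h4 := h2.log (by positivity)
  refine ((h3.sub h4).congr' ?_).trans (le_of_eq ?_)
  · filter_upwards [h1.eventually (lt_mem_nhds (show 0 < Ig n (5 / 8) / Ig n (1 / 2) by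
      positivity)), h2.eventually (lt_mem_nhds (show 0 < Ac n * Ig n (5 / 8) / Ig n (1 / 2) by
      positivity))] with i g1 g2
    have hz := hnz (h i)
    rw [e3] at g2 ⊢
    have g3 : 0 < ∫ x, D i x ^ (5 / 4 : ℝ) ∂μ := by
      by_contra hc
      exact absurd g1 (not_lt.2 (div_nonpos_of_nonpos_of_nonneg (not_lt.1 hc) hz.le))
    have g4 : 0 < ∫ z, H4 μ (D i) z * D i z ∂μ := by
      by_contra hc
      exact absurd g2 (not_lt.2 (div_nonpos_of_nonpos_of_nonneg (not_lt.1 hc) (by positivity)))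
    unfold aF
    rw [Real.log_div g3.ne' hz.ne', Real.log_div g4.ne' (by positivity), Real.log_pow]
    push_cast
    ring
  · congr 1
    have hpi := Real.pi_pos
    have l2 : Real.log (5 / 8 : ℝ) = Real.log 5 - 3 * Real.log 2 := by
      rw [Real.log_div (by norm_num) (by norm_num), show (8 : ℝ) = 2 ^ 3 by norm_num, Real.log_pow]
      norm_num
    have l3 : Real.log (1 / 2 : ℝ) = -Real.log 2 := by
      rw [one_div, Real.log_inv]
    have v : ∀ {t : ℝ}, 0 < t → Real.log (Ig n t) = n / 2 * (Real.log Real.pi - Real.log t) := by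
      intro t ht
      rw [Ig_val ht, Real.log_rpow (by positivity), Real.log_div hpi.ne' ht.ne']
    unfold Ac
    rw [Real.log_div i58.ne' i12.ne', Real.log_div (by positivity) i12.ne',
      Real.log_mul (by positivity) i58.ne', Real.log_pow, Real.log_div i1.ne' i12.ne',
      v (by norm_num), v (by norm_num), v one_pos, l2, l3, Real.log_one]
    push_cast
    ring

/-- scale invariance -/
lemma aF_scale [CompactSpace G] [SecondCountableTopology G] {f : G → ℝ} (hf : Adm f) {c : ℝ}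
    (hc : 0 < c) : aF μ (fun x => c * f x) = aF μ f := by
  have cf := hf.cont
  have hH : Continuous (H4 μ f) := Pool.Agent.N681.MK.cont_H4 cf
  have p1 : 0 < ∫ x, f x ^ (5 / 4 : ℝ) ∂μ := by
    have c1 : Continuous fun x => f x ^ (5 / 4 : ℝ) :=
      cf.rpow_const fun _ => Or.inr (by norm_num)
    exact c1.integral_pos_of_hasCompactSupport_nonneg_nonzero
      (HasCompactSupport.of_compactSpace _) (fun x => Real.rpow_nonneg (hf.pos x).le _)
      (x := 1) (Real.rpow_pos_of_pos (hf.pos 1) _).ne'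
  have p2 : 0 < ∫ x, H4 μ f x * f x ∂μ := by
    have c1 : Continuous fun x => H4 μ f x * f x := hH.mul cf
    exact c1.integral_pos_of_hasCompactSupport_nonneg_nonzero
      (HasCompactSupport.of_compactSpace _) (fun x => (mul_pos ((hf.H4 (μ := μ)).pos x) (hf.pos x)).le)
      (x := 1) (mul_pos ((hf.H4 (μ := μ)).pos 1) (hf.pos 1)).ne'
  unfold aF
  rw [Pool.Agent.N681.MK.H4_scale]
  have e1 : ∀ x, (c * f x) ^ (5 / 4 : ℝ) = c ^ (5 / 4 : ℝ) * f x ^ (5 / 4 : ℝ) := fun x =>
    Real.mul_rpow hc.le (hf.pos x).le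
  have e2 : ∀ x, c ^ 4 * H4 μ f x * (c * f x) = c ^ 5 * (H4 μ f x * f x) := fun x => by ring
  simp only [e1, e2]
  rw [integral_const_mul, integral_const_mul, Real.log_mul (by positivity) p1.ne',
    Real.log_mul (by positivity) p2.ne', Real.log_rpow hc, Real.log_pow]
  push_cast
  ring

/-- **the ultraviolet value of the a-function of a continuum theory counts the gluons** -/
theorem aF_uv [CompactSpace G] [SecondCountableTopology G] {c : ℝ} {F : ℤ → G → ℝ}
    (hF : ∀ k, Adm (F k))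
    (s1 : SD B hG atTop (fun m : ℕ => c * (m : ℝ)) (fun m z => F (-m) z / F (-m) 1) gs) :
    Tendsto (fun m : ℕ => aF μ (F (-m))) atTop
      (𝓝 (n * (4 * Real.log 2 - 3 / 2 * Real.log 5))) := by
  refine (aF_lim (μ := μ) s1 fun i x => div_pos ((hF _).pos x) ((hF _).pos 1)).congr fun m => ?_
  have e : (fun z => F (-m) z / F (-m) 1) = fun z => (F (-m) 1)⁻¹ * F (-m) z := by
    funext z
    ring
  rw [e, aF_scale (hF _) (inv_pos.2 ((hF _).pos 1))]

lemma conv_bd [CompactSpace G] [SecondCountableTopology G] {f : G → ℝ} (hf : Continuous f)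
    {a b : ℝ} (ha : 0 ≤ a) (h : ∀ x, a ≤ f x ∧ f x ≤ b) (x : G) :
    a * a ≤ Pool.Agent.N991.MK.conv μ f f x ∧ Pool.Agent.N991.MK.conv μ f f x ≤ b * b := by
  have hc : Continuous fun y => f y * f (y⁻¹ * x) := by fun_prop
  have hi : Integrable (fun y => f y * f (y⁻¹ * x)) μ :=
    hc.integrable_of_hasCompactSupport (HasCompactSupport.of_compactSpace _)
  have hb : 0 ≤ b := ha.trans ((h 1).1.trans (h 1).2)
  unfold Pool.Agent.N991.MK.conv
  constructor
  · have h1 := integral_mono (μ := μ) (integrable_const (a * a)) hi fun y =>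
      mul_le_mul (h y).1 (h (y⁻¹ * x)).1 ha (ha.trans (h y).1)
    simpa using h1
  · have h1 := integral_mono (μ := μ) hi (integrable_const (b * b)) fun y =>
      mul_le_mul (h y).2 (h (y⁻¹ * x)).2 (ha.trans (h (y⁻¹ * x)).1) hb
    simpa using h1

lemma aF_bd [CompactSpace G] [SecondCountableTopology G] {f : G → ℝ} (hf : Adm f)
    {a b : ℝ} (ha : 0 < a) (h : ∀ x, a ≤ f x ∧ f x ≤ b) :
    |aF μ f| ≤ 5 * (Real.log b - Real.log a) := by
  have cf := hf.cont
  have hH : Continuous (H4 μ f) := Pool.Agent.N681.MK.cont_H4 cf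
  have hb : 0 < b := ha.trans_le ((h 1).1.trans (h 1).2)
  have c0 : Continuous fun x => f x ^ (5 / 4 : ℝ) := cf.rpow_const fun _ => Or.inr (by norm_num)
  have i0 : Integrable (fun x => f x ^ (5 / 4 : ℝ)) μ :=
    c0.integrable_of_hasCompactSupport (HasCompactSupport.of_compactSpace _)
  have c1 : Continuous fun x => H4 μ f x * f x := hH.mul cf
  have i1 : Integrable (fun x => H4 μ f x * f x) μ :=
    c1.integrable_of_hasCompactSupport (HasCompactSupport.of_compactSpace _)
  have hcc : Continuous (Pool.Agent.N991.MK.conv μ f f) := cont_conv cf cf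
  have h4 : ∀ x, a ^ 4 ≤ H4 μ f x ∧ H4 μ f x ≤ b ^ 4 := by
    intro x
    have h5 := conv_bd (μ := μ) hcc (mul_nonneg ha.le ha.le) (fun x => conv_bd (μ := μ) cf ha.le h x) x
    have e1 : a * a * (a * a) = a ^ 4 := by ring
    have e2 : b * b * (b * b) = b ^ 4 := by ring
    rw [e1, e2] at h5
    exact h5
  have p1 : a ^ (5 / 4 : ℝ) ≤ ∫ x, f x ^ (5 / 4 : ℝ) ∂μ := by
    have h1 := integral_mono (μ := μ) (integrable_const (a ^ (5 / 4 : ℝ))) i0 fun x =>
      Real.rpow_le_rpow ha.le (h x).1 (by norm_num)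
    simpa using h1
  have p2 : ∫ x, f x ^ (5 / 4 : ℝ) ∂μ ≤ b ^ (5 / 4 : ℝ) := by
    have h1 := integral_mono (μ := μ) i0 (integrable_const (b ^ (5 / 4 : ℝ))) fun x =>
      Real.rpow_le_rpow (hf.pos x).le (h x).2 (by norm_num)
    simpa using h1
  have p3 : a ^ 5 ≤ ∫ x, H4 μ f x * f x ∂μ := by
    have h1 := integral_mono (μ := μ) (integrable_const (a ^ 5)) i1 fun x => by
      have := mul_le_mul (h4 x).1 (h x).1 ha.le ((hf.H4 (μ := μ)).pos x).le
      calc a ^ 5 = a ^ 4 * a := by ring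
        _ ≤ _ := this
    simpa using h1
  have p4 : ∫ x, H4 μ f x * f x ∂μ ≤ b ^ 5 := by
    have h1 := integral_mono (μ := μ) i1 (integrable_const (b ^ 5)) fun x => by
      have := mul_le_mul (h4 x).2 (h x).2 (hf.pos x).le (by positivity)
      calc _ ≤ b ^ 4 * b := this
        _ = b ^ 5 := by ring
    simpa using h1
  have q1 := Real.log_le_log (by positivity) p1
  have q2 := Real.log_le_log (lt_of_lt_of_le (by positivity) p1) p2
  have q3 := Real.log_le_log (by positivity) p3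
  have q4 := Real.log_le_log (lt_of_lt_of_le (by positivity) p3) p4
  rw [Real.log_rpow ha] at q1
  rw [Real.log_rpow hb] at q2
  rw [Real.log_pow] at q3 q4
  push_cast at q3 q4
  unfold aF
  rw [abs_le]
  constructor <;> linarith

/-- **the infrared limit** -/
theorem aF_ir [CompactSpace G] [SecondCountableTopology G] {F : ℕ → G → ℝ}
    (hF : ∀ k, Adm (F k)) (h : ∀ ε : ℝ, 0 < ε → ∀ᶠ k in atTop, ∀ x, |F k x - 1| < ε) :
    Tendsto (fun k => aF μ (F k)) atTop (𝓝 0) := by
  have hlim : Tendsto (fun ε : ℝ => 5 * (Real.log (1 + ε) - Real.log (1 - ε))) (𝓝 0) (𝓝 0) := by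
    have h1 : ContinuousAt (fun ε : ℝ => 5 * (Real.log (1 + ε) - Real.log (1 - ε))) 0 := by
      refine ContinuousAt.mul continuousAt_const (ContinuousAt.sub ?_ ?_)
      · exact (Real.continuousAt_log (by norm_num)).comp (by fun_prop)
      · exact (Real.continuousAt_log (by norm_num)).comp (by fun_prop)
    have h2 := h1.tendsto
    simpa using h2
  rw [Metric.tendsto_nhds]
  intro δ hδ
  have h3 : ∀ᶠ ε : ℝ in 𝓝[>] 0, |5 * (Real.log (1 + ε) - Real.log (1 - ε))| < δ ∧ ε < 1 := by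
    have h4 := (Metric.tendsto_nhds.1 hlim δ hδ).filter_mono
      (nhdsWithin_le_nhds (s := Set.Ioi (0 : ℝ)))
    have h5 : ∀ᶠ ε : ℝ in 𝓝[>] 0, ε < 1 :=
      (gt_mem_nhds one_pos).filter_mono nhdsWithin_le_nhds
    filter_upwards [h4, h5] with ε g1 g2
    rw [Real.dist_eq, sub_zero] at g1
    exact ⟨g1, g2⟩
  obtain ⟨ε, ⟨g1, g2⟩, g3⟩ := (h3.and self_mem_nhdsWithin).exists
  filter_upwards [h ε g3] with k hk
  have h6 := aF_bd (μ := μ) (hF k) (a := 1 - ε) (b := 1 + ε) (by linarith) fun x => by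
    have := abs_lt.1 (hk x)
    constructor <;> linarith [this.1, this.2]
  rw [Real.dist_eq, sub_zero]
  exact h6.trans_lt (lt_of_le_of_lt (le_abs_self _) g1)

end

end Pool.Agent.N984.AT
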