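import Mathlib
import Pool.Agent.N984.AT.Lim
import Pool.Agent.N109.T3.Fin3
import Pool.Agent.N109.T3.VolC
import Pool.Agent.N991.MK.IVol2

/-!
# The a-function of the continuum theories
-/

open MeasureTheory Matrix Filter Pool.Agent.N991.MK Pool.Agent.N988.MK Pool.Agent.N989.MK
open scoped Matrix.Norms.Frobenius Topology
open Pool.Agent.H906R3.YM Pool.Agent.W793.YM Pool.Agent.TH618.YM Pool.Agent.N984.TW
open Pool.Agent.N681.MK (evo)
open Pool.Agent.N839.T3 (SD)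
open Pool.Agent.N109.T3

namespace Pool.Agent.N984.AT

set_option linter.unusedSectionVars false

noncomputable section

section

variable {G : Type*} [Group G] [TopologicalSpace G] [IsTopologicalGroup G] [CompactSpace G]
  [MeasurableSpace G] [BorelSpace G] [SecondCountableTopology G]
  {μ : Measure G} [IsProbabilityMeasure μ] [μ.IsHaarMeasure] [μ.IsMulRightInvariant]
  [μ.IsInvInvariant] {F : ℤ → G → ℝ}

/-- the effective weights tend to one at large scales -/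
theorem to_one (hF : ∀ k, Adm (F k)) (h1 : ∀ k, ∫ x, F k x ∂μ = 1)
    (hr : ∀ (k : ℤ) (j : ℕ), nrm μ (TTn μ (F k) j) = F (k + j)) {k1 : ℤ}
    (hs : Sm μ (1 / 10) (F k1)) :
    ∀ ε : ℝ, 0 < ε → ∀ᶠ k : ℕ in atTop, ∀ x, |F k x - 1| < ε := by
  intro ε hε
  have hlim : Tendsto (fun j : ℕ => 10 / 21 * (21 / 100 : ℝ) ^ 4 ^ j) atTop (𝓝 (10 / 21 * 0)) := by
    refine Tendsto.const_mul _ ?_
    exact (tendsto_pow_atTop_nhds_zero_of_lt_one (by norm_num) (by norm_num)).comp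
      (tendsto_pow_atTop_atTop_of_one_lt (by norm_num : (1 : ℕ) < 4))
  rw [mul_zero] at hlim
  obtain ⟨j0, hj0⟩ := eventually_atTop.1 (hlim.eventually (gt_mem_nhds hε))
  refine eventually_atTop.2 ⟨(k1 + j0).toNat, fun k hk x => ?_⟩
  have e : (k : ℤ) = k1 + ((k - k1 : ℤ).toNat : ℤ) := by omega
  obtain ⟨j, hj⟩ : ∃ j : ℕ, j = (k - k1 : ℤ).toNat := ⟨_, rfl⟩
  rw [← hj] at e
  have hjj : j0 ≤ j := by omega
  have h2 := Sm_nrm' ((hF k1).TTn j) (hs.TTn (hF k1) j) x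
  rw [hr k1 j, ← e, h1, mul_one] at h2
  exact h2.trans_lt (hj0 j hjj)

end

variable {N n : ℕ} {G : Subgroup (UN N)}
variable [MeasurableSpace G] [BorelSpace G] {μ : Measure G} [IsProbabilityMeasure μ]
  [μ.IsHaarMeasure]
variable [CompactSpace G] [ConnectedSpace G] [SecondCountableTopology G] [μ.IsMulRightInvariant]
  [μ.IsInvInvariant]

/-- **the limits of the a-function of a continuum theory** -/
theorem a_limits (hG : SimpleGroup G) (B : Frame G n) {P : Matrix (Fin N) (Fin N) ℂ}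
    (hP : Constituent G P) {cA : ℝ} (hcA0 : 0 < cA)
    (hcA : ∀ x : Fin n → ℝ, ∑ a, ‖LX B x * B.X a - B.X a * LX B x‖ ^ 2 = cA * ∑ a, x a ^ 2)
    {u : ℝ} {F : ℤ → G → ℝ} (hL : LimitTheory μ B.X P cA u F) {S : G → ℝ} {β : ℕ → ℝ}
    {l : ℕ → ℕ} (ha : Appr μ F S β l) :
    Tendsto (fun m : ℕ => aF μ (F (-m))) atTop
      (𝓝 (n * (4 * Real.log 2 - 3 / 2 * Real.log 5))) ∧
    Tendsto (fun m : ℕ => aF μ (F m)) atTop (𝓝 0) ∧
    ∀ ε : ℝ, 0 < ε → ∀ᶠ k : ℕ in atTop, ∀ x, |F k x - 1| < ε := by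
  have hF : ∀ k, Adm (F k) := lt_adm hL
  have hFs := lt_rcs hL
  have hW1 := lt_W1 hcA0 hL
  have hW : ∀ k, WW μ (chiP P) (F k) < 1 := fun k => by
    rw [lt_WW hL]
    exact (hL.wilson k).2
  obtain ⟨m, hg⟩ := exists_gen B hG.closed hG.connected
  have hI : IrC G P := ⟨⟨hP.herm, hP.idem, hP.comm⟩, hP.ne, hP.irr, hP.nontriv⟩
  have ho : Obs μ (chiP P : G → ℝ) := obs_chiP hI
  obtain ⟨r₁, hr₁, hsd⟩ := Pool.Agent.N453.MK.sd_limit B μ hG.closed
  obtain ⟨κS, r, ε, h1, K, h0, C, A, R, K', hκS, hr, hr3, -, hε, hε3, hK', hgr, hadm, hsc, hbw,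
    Fl, hT⟩ := setup_S μ hG B hP hcA0 hcA ha.bare hr₁ (show (0 : ℝ) < 1 / 1000 by norm_num)
  have hadm' : ∀ β, Adm (bw S β) := fun β => by rw [hbw]; exact hadm _
  have hconv := appr_ut (μ := μ) hadm' ha.conv
  have hex := hex_of Fl ho hadm hK' hsc hg (β := fun i => κS * β i)
    (fun i => mul_pos hκS (ha.pos i)) ha.len hF (fun k => by
      simpa only [← hbw] using hconv k) hW1 hW
  simp only [← hbw] at hex
  obtain ⟨hc0, h2, C2, -, T0⟩ := hT _ 1 cp_tr (curv_tr B hG.closed)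
  obtain ⟨Φ, a1, a2, a3, a4, a5⟩ := T0.conv Fl.c_pos Fl.C_nn Fl.R_nn hc0 (fun i => hadm' (β i))
    ha.len hF hFs hconv hex
  obtain ⟨s1, s2⟩ := hsd r hr hr3 hgr hε3 one_pos hc0 T0
    Fl.c_pos Fl.C_nn Fl.R_nn (fun i => hadm' (β i)) ha.len hex hF a1 hconv a3
  obtain ⟨k1, hk1⟩ := Sm_flow Fl hg (fun i => hadm' (β i)) ha.len hF hconv hex
  have hr' : ∀ (k : ℤ) (j : ℕ), nrm μ (TTn μ (F k) j) = F (k + j) :=
    fun k j => traj_iter hF hFs hL.int_one k j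
  have h3 := to_one hF hL.int_one hr' hk1
  exact ⟨aF_uv hF s1, aF_ir (F := fun k : ℕ => F k) (fun k => hF _) h3, h3⟩

end

end Pool.Agent.N984.AT
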